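import Pool.Agent.K9h78.S6.FullTr
import Pool.Agent.K9h78.S6.Padb
import Pool.Agent.K9h78.S6.Fin4b

/-!
# Complex planes in Schatten classes: the exponents are exactly 2, 4, 6

Question Q1 of MP_41c25d_an: for which `p ∈ [1, ∞)` is the complex span of any two elements of `S_p`
complex-linearly isometric to a subspace of complex `L_p(0,1)`? Answer: exactly for `p = 2, 4, 6`.

Proof of the new case `p = 6`. For matrices `A, B` the form `F(α,β) = tr (M*M)³`, `M = αA+βB`, of
bidegree `(3,3)` is a Hermitian functional `Φ` on forms of bidegree `(3,3)` (with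
`Φ(|αx+βy|⁶) = F(α,β)`), and it must be shown that `Φ` is a positive combination of point evaluations.
(a) Every Hermitian `Φ` with `Φ(|h|²) ≥ 0` for all forms `h` of bidegree `(2,1)` is one (extreme rays:
a degenerate functional on cubics is a sum of at most three evaluations; otherwise the kernel on
bidegree `(2,1)` is at least two-dimensional, contains a reducible form `l·g` with a real form `g` of
bidegree `(1,1)`, and `Φ` lives on the circle `g = 0`). (b) If `h` vanishes at `(1,0)` and `(0,1)`,
`h = a x²ȳ + 2b xyx̄ + c y²x̄ + 2d xyȳ`, then `Φ(|h|²) = ‖X‖² + (1/3)⟨Γ, E⟩` where `Γ` is the Gram matrix of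
`AA*B - BA*A`, `AB*B - BB*A` and `E` is an explicit Hermitian `2 × 2` matrix. (c) If `h` has two more
zeros then `E ≥ 0` (an inequality inside the deltoid). (d) If positivity failed for `Φ`, the first
functional `Φ + λΦ₁` which satisfies it is a sum of evaluations at zeros of some `h ≠ 0` with
`(Φ + λΦ₁)(|h|²) = 0`; it is positive definite on cubics, so `h` has four zeros, and (b), (c) give a
contradiction. Operators are treated by Caratheodory's theorem and a limit over corners.

For `p` not an even integer the pair `E₁₁`, all-ones matrix does not embed (differences of averages of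
`|z f + g|^p` against Poisson-type kernels); for even `p ≥ 8` the pair `1`, `E₁₂` does not embed.
-/

set_option autoImplicit false

open MeasureTheory Matrix

namespace Pool.Agent.Results.MP_41c25d_an.FullAnswer

/-- `tr |M|^p` exists and equals `t` (so `M ∈ S_p` and `‖M‖_p^p = t`): in the orthonormal basis `b`
the series of the numbers `⟨b_i, (M* M)^(p/2) b_i⟩ ≥ 0` converges and has the sum `t`. The power
`(M* M)^(p/2)` is given by the continuous functional calculus. -/
def HasTr {H : Type*} [NormedAddCommGroup H] [InnerProductSpace ℂ H] [CompleteSpace H]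
    (b : HilbertBasis ℕ ℂ H) (p : ℝ) (M : H →L[ℂ] H) (t : ℝ) : Prop :=
  HasSum (fun i => (inner ℂ (b i)
    (cfc (fun x : ℝ => x ^ (p / 2)) (ContinuousLinearMap.adjoint M * M) (b i))).re) t

/-- `tr |M|^p` for a matrix: the sum of the numbers `λ^(p/2)` over the eigenvalues `λ` of `M* M`. -/
noncomputable def trPow {n : ℕ} (p : ℝ) (M : Matrix (Fin n) (Fin n) ℂ) : ℝ :=
  ∑ i, (isHermitian_conjTranspose_mul_self M).eigenvalues i ^ (p / 2)

/-- Let `p ≥ 1`. (1) Let `H` be a separable infinite-dimensional complex Hilbert space (with an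
orthonormal basis `b`). For all operators `A, B` of the Schatten class `S_p` there are `f, g` in complex
`L_p(0,1)` with `‖αA+βB‖_p^p = ∫ |αf+βg|^p` for all complex `α, β`, if and only if `p = 2`, `p = 4` or
`p = 6`. (2) For every `n ≥ 2` the same is true for pairs of `n × n` matrices (finite-dimensional
Hilbert spaces). -/
theorem result (p : ℝ) (hp : 1 ≤ p) :
    (∀ (H : Type*) [NormedAddCommGroup H] [InnerProductSpace ℂ H] [CompleteSpace H]
      (b : HilbertBasis ℕ ℂ H),
      (∀ A B : H →L[ℂ] H, (∃ t, HasTr b p A t) → (∃ t, HasTr b p B t) →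
        ∃ f g : ℝ → ℂ, MemLp f (ENNReal.ofReal p) (volume.restrict (Set.Ioo (0:ℝ) 1)) ∧
          MemLp g (ENNReal.ofReal p) (volume.restrict (Set.Ioo (0:ℝ) 1)) ∧
          ∀ α β : ℂ, HasTr b p (α • A + β • B)
            (∫ t in Set.Ioo (0:ℝ) 1, ‖α * f t + β * g t‖ ^ p)) ↔ p = 2 ∨ p = 4 ∨ p = 6) ∧
    (∀ n : ℕ, 2 ≤ n →
      ((∀ A B : Matrix (Fin n) (Fin n) ℂ,
        ∃ f g : ℝ → ℂ, MemLp f (ENNReal.ofReal p) (volume.restrict (Set.Ioo (0:ℝ) 1)) ∧
          MemLp g (ENNReal.ofReal p) (volume.restrict (Set.Ioo (0:ℝ) 1)) ∧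
          ∀ α β : ℂ, trPow p (α • A + β • B) =
            ∫ t in Set.Ioo (0:ℝ) 1, ‖α * f t + β * g t‖ ^ p) ↔ p = 2 ∨ p = 4 ∨ p = 6)) := by
  have hp0 : 0 < p := by linarith
  refine ⟨fun _ _ _ _ b => Pool.Agent.K9h78.S6.full_tr b p hp, fun n hn => ⟨fun hall => ?_,
    fun h A B => ?_⟩⟩
  · rw [← Pool.Agent.K9h78.LP.class_two Pool.Agent.K9h78.LP.tk p hp]
    intro A B
    obtain ⟨L, hL, hpad⟩ := Pool.Agent.K9h78.S6.padb n hn p hp0
    obtain ⟨f, g, hf, hg, h⟩ := hall (L A) (L B)
    refine ⟨f, g, hf, hg, fun α β => ?_⟩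
    rw [← hpad, hL]
    exact h α β
  · apply Pool.Agent.K9h78.LP.embed_of_rep hp0
    rcases h with rfl | rfl | rfl
    · exact Pool.Agent.K9h78.S6.repM2 A B
    · exact Pool.Agent.K9h78.S6.fin4b n A B
    · exact Pool.Agent.K9h78.S6.repM6 A B

end Pool.Agent.Results.MP_41c25d_an.FullAnswer
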